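import Pool.Agent.R230.Car.Op

set_option autoImplicit false

namespace Pool.Agent.R230.Car

open Real MeasureTheory Set Filter Topology

theorem osc_psi {psi psi' : ℝ → ℝ} (hd : ∀ t, HasDerivAt psi (psi' t) t) (hc : Continuous psi')
    (h1 : ∀ t, |psi t| ≤ 1) {B : ℝ} (hB : ∀ t, |psi' t| ≤ B) (h4 : psi 4 = 0) {mu : ℝ}
    (hmu : |mu| ≤ 1) {eta : ℝ} (heta : eta ≠ 0) :
    ‖∫ t in (1 : ℝ)..4, (E mu t * ((psi t / t : ℝ) : ℂ)) * Complex.exp (Complex.I * eta * t)‖
      ≤ (1 + 3 * (B + 2)) / |eta| := by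
  have hB0 : 0 ≤ B := (abs_nonneg _).trans (hB 0)
  have hcont : Continuous psi := continuous_iff_continuousAt.mpr fun t => (hd t).continuousAt
  apply osc (u' := fun t => Complex.I * mu / t * E mu t * ((psi t / t : ℝ) : ℂ)
    + E mu t * (((psi' t * t - psi t * 1) / t ^ 2 : ℝ) : ℂ))
  · intro t ht
    have ht0 : 0 < t := lt_of_lt_of_le one_pos ht.1
    have h2 : HasDerivAt (fun t : ℝ => psi t / t) ((psi' t * t - psi t * 1) / t ^ 2) t :=
      (hd t).div (hasDerivAt_id t) ht0.ne'
    exact (hasDerivAt_E mu ht0).mul h2.ofReal_comp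
  · intro t ht
    have ht0 : 0 < t := lt_of_lt_of_le one_pos ht.1
    apply ContinuousAt.continuousWithinAt
    have hE := (hasDerivAt_E mu ht0).continuousAt
    have htC : ((t : ℝ) : ℂ) ≠ 0 := by exact_mod_cast ht0.ne'
    have c1 : ContinuousAt (fun t : ℝ => psi t / t) t :=
      hcont.continuousAt.div continuousAt_id ht0.ne'
    have c2 : ContinuousAt (fun t : ℝ => (psi' t * t - psi t * 1) / t ^ 2) t := by
      apply ContinuousAt.div
      · fun_prop
      · fun_prop
      · positivity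
    have c3 : ContinuousAt (fun t : ℝ => Complex.I * (mu : ℂ) / (t : ℂ)) t := by
      apply ContinuousAt.div continuousAt_const _ htC
      exact Complex.continuous_ofReal.continuousAt
    exact ((c3.mul hE).mul (Complex.continuous_ofReal.continuousAt.comp c1)).add
      (hE.mul (Complex.continuous_ofReal.continuousAt.comp c2))
  · intro t ht
    have ht1 : 1 ≤ t := ht.1
    have ht0 : 0 < t := lt_of_lt_of_le one_pos ht1
    have e1 : ‖Complex.I * mu / t * E mu t * ((psi t / t : ℝ) : ℂ)‖ ≤ 1 := by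
      rw [norm_mul, norm_mul, norm_div, norm_mul, Complex.norm_I, one_mul, norm_E, mul_one,
        Complex.norm_real, Complex.norm_real, Complex.norm_real, Real.norm_eq_abs,
        Real.norm_eq_abs, Real.norm_eq_abs, abs_div, abs_of_pos ht0]
      have a1 : |mu| / t ≤ 1 := by
        rw [div_le_one ht0]; linarith
      have a2 : |psi t| / t ≤ 1 := by
        rw [div_le_one ht0]; linarith [h1 t]
      have a3 : 0 ≤ |mu| / t := by positivity
      have a4 : 0 ≤ |psi t| / t := by positivity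
      nlinarith
    have e2 : ‖E mu t * (((psi' t * t - psi t * 1) / t ^ 2 : ℝ) : ℂ)‖ ≤ B + 1 := by
      rw [norm_mul, norm_E, one_mul, Complex.norm_real, Real.norm_eq_abs, abs_div,
        abs_of_pos (by positivity : 0 < t ^ 2), div_le_iff₀ (by positivity)]
      have a1 : |psi' t * t - psi t * 1| ≤ B * t + 1 := by
        calc |psi' t * t - psi t * 1| ≤ |psi' t * t| + |psi t * 1| := abs_sub _ _
          _ = |psi' t| * t + |psi t| := by rw [abs_mul, abs_of_pos ht0, mul_one]
          _ ≤ B * t + 1 := by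
            have := mul_le_mul_of_nonneg_right (hB t) ht0.le
            linarith [h1 t]
      nlinarith [mul_nonneg hB0 ht0.le]
    calc _ ≤ ‖Complex.I * mu / t * E mu t * ((psi t / t : ℝ) : ℂ)‖
        + ‖E mu t * (((psi' t * t - psi t * 1) / t ^ 2 : ℝ) : ℂ)‖ := norm_add_le _ _
      _ ≤ 1 + (B + 1) := add_le_add e1 e2
      _ = B + 2 := by ring
  · simp [h4]
  · rw [norm_mul, norm_E, one_mul, Complex.norm_real, Real.norm_eq_abs, div_one]
    exact h1 1
  · exact heta

theorem T_single : ∃ M : ℝ, 0 ≤ M ∧ ∀ xi : ℝ, 1 ≤ xi → ∀ mu : ℝ, |mu| ≤ 1 → ∀ x : ℝ, |x| ≤ 1 →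
    ‖T (E mu) (g xi) x - -2 * Complex.I * Complex.exp (Complex.I * xi * x)
      * (E (-mu) xi * N mu xi)‖ ≤ M / xi := by
  obtain ⟨B, hB⟩ := exists_phi_lip
  refine ⟨2 * (1 + 3 * (B + 2)), by positivity, ?_⟩
  intro xi hxi mu hmu x hx
  have hxi0 : 0 < xi := lt_of_lt_of_le one_pos hxi
  obtain ⟨B', hB'⟩ : ∃ C, LipschitzWith C (g xi) :=
    ContDiff.lipschitzWith_of_hasCompactSupport (g_compact xi) (g_smooth xi) (by simp)
  have hR : ∀ y, 3 ≤ |y| → g xi y = 0 := fun y hy => g_zero xi hy
  have hint : IntegrableOn (fun t => E mu t * dq (g xi) x t) (Ioi 0) :=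
    integrableOn_mul_dq (measurable_E mu) (fun t => (norm_E mu t).le) hB' hR x
  set G : ℝ → ℂ := fun t => E mu t * dq (g xi) x t with hG
  have hx' := abs_le.mp hx
  -- split
  have split1 : T (E mu) (g xi) x = (∫ t in Ioc (0 : ℝ) 1, G t) + ∫ t in Ioi (1 : ℝ), G t := by
    unfold T
    rw [← Ioc_union_Ioi_eq_Ioi (zero_le_one (α := ℝ)), setIntegral_union]
    · exact Ioc_disjoint_Ioi_same
    · exact measurableSet_Ioi
    · exact hint.mono_set Ioc_subset_Ioi_self
    · exact hint.mono_set (Ioi_subset_Ioi zero_le_one)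
  have split2 : ∫ t in Ioi (1 : ℝ), G t = ∫ t in (1 : ℝ)..4, G t := by
    rw [← Ioc_union_Ioi_eq_Ioi (show (1 : ℝ) ≤ 4 by norm_num), setIntegral_union]
    · rw [intervalIntegral.integral_of_le (by norm_num)]
      have : ∫ t in Ioi (4 : ℝ), G t = 0 := by
        apply setIntegral_eq_zero_of_forall_eq_zero
        intro t ht
        simp only [hG]
        rw [dq_eq_zero hR (by linarith [show (4 : ℝ) < t from ht] : (3 : ℝ) + |x| ≤ t), mul_zero]
      rw [this, add_zero]
    · exact Ioc_disjoint_Ioi_same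
    · exact measurableSet_Ioi
    · exact hint.mono_set (Ioc_subset_Ioi_self.trans (Ioi_subset_Ioi zero_le_one))
    · exact hint.mono_set (Ioi_subset_Ioi (by norm_num))
  have part1 : ∫ t in Ioc (0 : ℝ) 1, G t
      = -2 * Complex.I * Complex.exp (Complex.I * xi * x) * (E (-mu) xi * N mu xi) := by
    rw [← scaling mu hxi0, intervalIntegral.integral_of_le zero_le_one,
      ← integral_const_mul]
    apply setIntegral_congr_fun measurableSet_Ioc
    intro t ht
    simp only [hG, dq, g]
    rw [phi_one (by rw [abs_le]; constructor <;> linarith [ht.1, ht.2]),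
      phi_one (by rw [abs_le]; constructor <;> linarith [ht.1, ht.2])]
    have e1 : Complex.exp (Complex.I * xi * ((x - t : ℝ) : ℂ))
        = Complex.exp (Complex.I * xi * x) * Complex.exp (-((xi * t : ℝ) : ℂ) * Complex.I) := by
      rw [← Complex.exp_add]; congr 1; push_cast; ring
    have e2 : Complex.exp (Complex.I * xi * ((x + t : ℝ) : ℂ))
        = Complex.exp (Complex.I * xi * x) * Complex.exp (((xi * t : ℝ) : ℂ) * Complex.I) := by
      rw [← Complex.exp_add]; congr 1; push_cast; ring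
    rw [e1, e2, Complex.ofReal_div, Complex.ofReal_sin, Complex.sin]
    have hI : Complex.I * Complex.I = -1 := Complex.I_mul_I
    generalize Complex.exp (-((xi * t : ℝ) : ℂ) * Complex.I) = a
    generalize Complex.exp (((xi * t : ℝ) : ℂ) * Complex.I) = b
    generalize Complex.exp (Complex.I * xi * x) = c
    generalize E mu t = e
    rw [Complex.ofReal_one]
    linear_combination (c * e * (a - b) / (t : ℂ)) * hI
  have part2 : ∫ t in (1 : ℝ)..4, G t
      = Complex.exp (Complex.I * xi * x) *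
        ((∫ t in (1 : ℝ)..4, (E mu t * ((phi (x - t) / t : ℝ) : ℂ))
            * Complex.exp (Complex.I * (-xi : ℝ) * t))
        - ∫ t in (1 : ℝ)..4, (E mu t * ((phi (x + t) / t : ℝ) : ℂ))
            * Complex.exp (Complex.I * xi * t)) := by
    have hcE : ∀ t ∈ Icc (1 : ℝ) 4, ContinuousAt (E mu) t := fun t ht =>
      (hasDerivAt_E mu (lt_of_lt_of_le one_pos ht.1)).continuousAt
    have hcphi : Continuous phi := phi_smooth.continuous
    have i1 : IntervalIntegrable (fun t : ℝ => (E mu t * ((phi (x - t) / t : ℝ) : ℂ))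
        * Complex.exp (Complex.I * (-xi : ℝ) * t)) volume 1 4 := by
      apply ContinuousOn.intervalIntegrable
      rw [uIcc_of_le (by norm_num)]
      intro t ht
      apply ContinuousAt.continuousWithinAt
      have ht0 : t ≠ 0 := (lt_of_lt_of_le one_pos ht.1).ne'
      have c1 : ContinuousAt (fun t : ℝ => phi (x - t) / t) t := by
        apply ContinuousAt.div _ continuousAt_id ht0
        fun_prop
      exact ((hcE t ht).mul (Complex.continuous_ofReal.continuousAt.comp c1)).mul (by fun_prop)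
    have i2 : IntervalIntegrable (fun t : ℝ => (E mu t * ((phi (x + t) / t : ℝ) : ℂ))
        * Complex.exp (Complex.I * xi * t)) volume 1 4 := by
      apply ContinuousOn.intervalIntegrable
      rw [uIcc_of_le (by norm_num)]
      intro t ht
      apply ContinuousAt.continuousWithinAt
      have ht0 : t ≠ 0 := (lt_of_lt_of_le one_pos ht.1).ne'
      have c1 : ContinuousAt (fun t : ℝ => phi (x + t) / t) t := by
        apply ContinuousAt.div _ continuousAt_id ht0
        fun_prop
      exact ((hcE t ht).mul (Complex.continuous_ofReal.continuousAt.comp c1)).mul (by fun_prop)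
    rw [← intervalIntegral.integral_sub i1 i2, ← intervalIntegral.integral_const_mul]
    apply intervalIntegral.integral_congr
    intro t ht
    simp only [hG, dq, g]
    have e1 : Complex.exp (Complex.I * xi * ((x - t : ℝ) : ℂ))
        = Complex.exp (Complex.I * xi * x) * Complex.exp (Complex.I * (-xi : ℝ) * t) := by
      rw [← Complex.exp_add]; congr 1; push_cast; ring
    have e2 : Complex.exp (Complex.I * xi * ((x + t : ℝ) : ℂ))
        = Complex.exp (Complex.I * xi * x) * Complex.exp (Complex.I * xi * t) := by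
      rw [← Complex.exp_add]; congr 1; push_cast; ring
    rw [e1, e2, Complex.ofReal_div, Complex.ofReal_div]
    ring
  have hdphi : ∀ y, HasDerivAt phi (deriv phi y) y := fun y =>
    (phi_smooth.differentiable (by simp) y).hasDerivAt
  have hdc : Continuous (deriv phi) := phi_smooth.continuous_deriv (by simp)
  have hdb : ∀ y, |deriv phi y| ≤ B := fun y => by
    have := norm_deriv_le_of_lipschitz (x₀ := y) hB
    simpa [Real.norm_eq_abs] using this
  have hphi1 : ∀ y, |phi y| ≤ 1 := fun y => by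
    rw [abs_of_nonneg (phi_nonneg y)]; exact phi_le_one y
  have b1 : ‖∫ t in (1 : ℝ)..4, (E mu t * ((phi (x - t) / t : ℝ) : ℂ))
      * Complex.exp (Complex.I * (-xi : ℝ) * t)‖ ≤ (1 + 3 * (B + 2)) / |(-xi)| := by
    apply osc_psi (psi := fun t => phi (x - t)) (psi' := fun t => -deriv phi (x - t))
    · intro t
      have h0 : HasDerivAt (fun t : ℝ => x - t) (-1) t := by
        simpa using (hasDerivAt_id t).const_sub x
      have h3 := (hdphi (x - t)).comp t h0
      rw [mul_neg, mul_one] at h3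
      exact h3
    · fun_prop
    · intro t; exact hphi1 _
    · intro t; rw [abs_neg]; exact hdb _
    · apply phi_zero
      rw [abs_of_neg (by linarith)]; linarith
    · exact hmu
    · linarith
  have b2 : ‖∫ t in (1 : ℝ)..4, (E mu t * ((phi (x + t) / t : ℝ) : ℂ))
      * Complex.exp (Complex.I * xi * t)‖ ≤ (1 + 3 * (B + 2)) / |xi| := by
    apply osc_psi (psi := fun t => phi (x + t)) (psi' := fun t => deriv phi (x + t))
    · intro t
      have h0 : HasDerivAt (fun t : ℝ => x + t) 1 t := by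
        simpa using (hasDerivAt_id t).const_add x
      have h3 := (hdphi (x + t)).comp t h0
      rw [mul_one] at h3
      exact h3
    · fun_prop
    · intro t; exact hphi1 _
    · intro t; exact hdb _
    · apply phi_zero
      rw [abs_of_pos (by linarith)]; linarith
    · exact hmu
    · exact hxi0.ne'
  rw [split1, part1, split2, part2, add_sub_cancel_left, norm_mul]
  have n1 : ‖Complex.exp (Complex.I * xi * x)‖ = 1 := by
    have e1 : Complex.I * (xi : ℂ) * (x : ℂ) = ((xi * x : ℝ) : ℂ) * Complex.I := by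
      push_cast; ring
    rw [e1, Complex.norm_exp_ofReal_mul_I]
  rw [n1, one_mul]
  rw [abs_neg, abs_of_pos hxi0] at b1
  rw [abs_of_pos hxi0] at b2
  calc _ ≤ _ := norm_sub_le _ _
    _ ≤ (1 + 3 * (B + 2)) / xi + (1 + 3 * (B + 2)) / xi := add_le_add b1 b2
    _ = 2 * (1 + 3 * (B + 2)) / xi := by ring

/-- the test function: `phi` times a lacunary sum of exponentials. -/
noncomputable def fq (K q : ℕ) (x : ℝ) : ℂ := ∑ k ∈ Finset.range K, g ((q : ℝ) ^ (8 ^ k)) x

theorem fq_smooth (K q : ℕ) : ContDiff ℝ (⊤ : ℕ∞) (fq K q) := by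
  unfold fq
  exact ContDiff.sum fun k _ => g_smooth _

theorem fq_zero (K q : ℕ) {x : ℝ} (hx : 3 ≤ |x|) : fq K q x = 0 := by
  unfold fq
  exact Finset.sum_eq_zero fun k _ => g_zero _ hx

theorem fq_compact (K q : ℕ) : HasCompactSupport (fq K q) := by
  apply HasCompactSupport.of_support_subset_isCompact (isCompact_closedBall (0 : ℝ) 3)
  intro x hx
  by_contra h
  apply hx
  apply fq_zero
  rw [Metric.mem_closedBall, Real.dist_eq, sub_zero, not_le] at h
  exact h.le

/-- the shift parameter. -/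
noncomputable def muj (K q j : ℕ) : ℝ := 2 * π * j / 8 ^ K / Real.log q

theorem T_sum {w : ℝ → ℂ} (hw : Measurable w) (hw1 : ∀ t, ‖w t‖ ≤ 1) (K q : ℕ) (x : ℝ) :
    T w (fq K q) x = ∑ k ∈ Finset.range K, T w (g ((q : ℝ) ^ (8 ^ k))) x := by
  unfold T
  rw [← integral_finsetSum]
  · congr 1
    ext t
    simp only [dq, fq]
    rw [← Finset.sum_sub_distrib, Finset.sum_div, Finset.mul_sum]
  · intro k _
    obtain ⟨B', hB'⟩ : ∃ C, LipschitzWith C (g ((q : ℝ) ^ (8 ^ k))) :=
      ContDiff.lipschitzWith_of_hasCompactSupport (g_compact _) (g_smooth _) (by simp)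
    exact integrableOn_mul_dq hw hw1 hB' (fun y hy => g_zero _ hy) x

theorem lower (K : ℕ) : ∃ q : ℕ, 2 ≤ q ∧ ∀ x : ℝ, |x| ≤ 1 → ∃ j < 8 ^ K,
    A * K / 2 ≤ ‖T (E (muj K q j)) (fq K q) x‖ := by
  obtain ⟨M, hM0, hM⟩ := T_single
  have hA := A_pos
  have hlog : Tendsto (fun q : ℕ => Real.log q) atTop atTop :=
    Real.tendsto_log_atTop.comp tendsto_natCast_atTop_atTop
  have hmu : ∀ j : ℕ, Tendsto (fun q : ℕ => muj K q j) atTop (𝓝 0) := fun j =>
    Tendsto.div_atTop tendsto_const_nhds hlog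
  have hxi : ∀ k : ℕ, Tendsto (fun q : ℕ => (q : ℝ) ^ (8 ^ k)) atTop atTop := fun k =>
    (tendsto_pow_atTop (by positivity)).comp tendsto_natCast_atTop_atTop
  have ev1 : ∀ᶠ q : ℕ in atTop, ∀ j ∈ Finset.range (8 ^ K), |muj K q j| ≤ 1 := by
    rw [Filter.eventually_all_finset]
    intro j _
    have := (hmu j).abs
    rw [abs_zero] at this
    exact this.eventually_le_const one_pos
  have ev2 : ∀ᶠ q : ℕ in atTop, ∀ k ∈ Finset.range K, M / (q : ℝ) ^ (8 ^ k) ≤ A / 4 := by
    rw [Filter.eventually_all_finset]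
    intro k _
    have : Tendsto (fun q : ℕ => M / (q : ℝ) ^ (8 ^ k)) atTop (𝓝 0) :=
      Tendsto.div_atTop tendsto_const_nhds (hxi k)
    exact this.eventually_le_const (by positivity)
  have ev3 : ∀ᶠ q : ℕ in atTop, ∀ j ∈ Finset.range (8 ^ K), ∀ k ∈ Finset.range K,
      ‖N (muj K q j) ((q : ℝ) ^ (8 ^ k)) - A‖ ≤ A / 8 := by
    rw [Filter.eventually_all_finset]
    intro j _
    rw [Filter.eventually_all_finset]
    intro k _
    have h1 := (tendsto_N (hmu j) (hxi k)).sub_const (A : ℂ)
    rw [sub_self] at h1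
    have h2 := h1.norm
    rw [norm_zero] at h2
    exact h2.eventually_le_const (by positivity)
  obtain ⟨q, hq1, hq2, hq3, hq4⟩ :=
    (ev1.and (ev2.and (ev3.and (eventually_ge_atTop 2)))).exists
  refine ⟨q, hq4, fun x hx => ?_⟩
  obtain ⟨j, hj, hjk⟩ := align K (fun k => (q : ℝ) ^ (8 ^ k) * x / (2 * π))
  refine ⟨j, hj, ?_⟩
  set mu := muj K q j with hmu_def
  have hqR : (2 : ℝ) ≤ q := by exact_mod_cast hq4
  have hlogq : Real.log q ≠ 0 := (Real.log_pos (by linarith)).ne'
  set z : ℕ → ℂ := fun k => Complex.exp (Complex.I * ((q : ℝ) ^ (8 ^ k) : ℝ) * x)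
    * E (-mu) ((q : ℝ) ^ (8 ^ k)) with hz
  have hzre : ∀ k ∈ Finset.range K, 1 / 2 ≤ (z k).re := by
    intro k hk
    obtain ⟨m, hm⟩ := hjk k (Finset.mem_range.mp hk)
    have h1 := cos_align hm
    have e1 : z k = Complex.exp (((2 * π * ((q : ℝ) ^ (8 ^ k) * x / (2 * π)
        - (j : ℝ) * 8 ^ k / 8 ^ K) : ℝ) : ℂ) * Complex.I) := by
      simp only [hz, E]
      rw [← Complex.exp_add, Real.log_pow, hmu_def, muj]
      congr 1
      have e2 : -(2 * π * j / 8 ^ K / Real.log q) * (((8 ^ k : ℕ) : ℝ) * Real.log q)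
          = -(2 * π * ((j : ℝ) * 8 ^ k / 8 ^ K)) := by
        push_cast
        field_simp
      rw [e2]
      have hpi : (π : ℂ) ≠ 0 := by exact_mod_cast Real.pi_ne_zero
      push_cast
      field_simp
      ring
    rw [e1, Complex.exp_ofReal_mul_I_re]
    exact h1
  have hsum : (K : ℝ) / 2 ≤ ‖∑ k ∈ Finset.range K, z k‖ := by
    calc (K : ℝ) / 2 = ∑ k ∈ Finset.range K, (1 / 2 : ℝ) := by simp; ring
      _ ≤ ∑ k ∈ Finset.range K, (z k).re := Finset.sum_le_sum hzre
      _ = (∑ k ∈ Finset.range K, z k).re := (Complex.re_sum _ _).symm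
      _ ≤ _ := Complex.re_le_norm _
  have hmain : ‖∑ k ∈ Finset.range K, (-2 * Complex.I * (A : ℂ)) * z k‖ ≥ A * K := by
    rw [← Finset.mul_sum, norm_mul, norm_mul, norm_mul, norm_neg, Complex.norm_I,
      Complex.norm_real, Real.norm_of_nonneg hA.le]
    have : ‖(2 : ℂ)‖ = 2 := by norm_num
    rw [this]
    nlinarith
  have herr : ‖T (E mu) (fq K q) x - ∑ k ∈ Finset.range K, (-2 * Complex.I * (A : ℂ)) * z k‖
      ≤ A * K / 2 := by
    rw [T_sum (measurable_E mu) (fun t => (norm_E mu t).le), ← Finset.sum_sub_distrib]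
    calc _ ≤ ∑ k ∈ Finset.range K, ‖T (E mu) (g ((q : ℝ) ^ (8 ^ k))) x
          - (-2 * Complex.I * (A : ℂ)) * z k‖ := norm_sum_le _ _
      _ ≤ ∑ k ∈ Finset.range K, A / 2 := by
        apply Finset.sum_le_sum
        intro k hk
        have hxi1 : (1 : ℝ) ≤ (q : ℝ) ^ (8 ^ k) := one_le_pow₀ (by linarith)
        have h1 := hM ((q : ℝ) ^ (8 ^ k)) hxi1 mu
          (hq1 j (Finset.mem_range.mpr hj)) x hx
        have h2 := hq2 k hk
        have h3 := hq3 j (Finset.mem_range.mpr hj) k hk
        have e1 : T (E mu) (g ((q : ℝ) ^ (8 ^ k))) x - (-2 * Complex.I * (A : ℂ)) * z k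
            = (T (E mu) (g ((q : ℝ) ^ (8 ^ k))) x
              - -2 * Complex.I * Complex.exp (Complex.I * ((q : ℝ) ^ (8 ^ k) : ℝ) * x)
              * (E (-mu) ((q : ℝ) ^ (8 ^ k)) * N mu ((q : ℝ) ^ (8 ^ k))))
              + -2 * Complex.I * z k * (N mu ((q : ℝ) ^ (8 ^ k)) - A) := by
          simp only [hz]; ring
        rw [e1]
        have hzn : ‖z k‖ = 1 := by
          simp only [hz]
          rw [norm_mul, norm_E, mul_one]
          have e1 : Complex.I * (((q : ℝ) ^ (8 ^ k) : ℝ) : ℂ) * (x : ℂ)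
              = (((q : ℝ) ^ (8 ^ k) * x : ℝ) : ℂ) * Complex.I := by
            push_cast; ring
          rw [e1, Complex.norm_exp_ofReal_mul_I]
        have h4 : ‖-2 * Complex.I * z k * (N mu ((q : ℝ) ^ (8 ^ k)) - A)‖ ≤ 2 * (A / 8) := by
          rw [norm_mul, norm_mul, norm_mul, norm_neg, Complex.norm_I, hzn]
          have : ‖(2 : ℂ)‖ = 2 := by norm_num
          rw [this]
          linarith
        calc _ ≤ _ := norm_add_le _ _
          _ ≤ A / 4 + 2 * (A / 8) := add_le_add (h1.trans h2) h4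
          _ = A / 2 := by ring
      _ = A * K / 2 := by simp; ring
  have := norm_sub_norm_le (∑ k ∈ Finset.range K, (-2 * Complex.I * (A : ℂ)) * z k)
    (T (E mu) (fq K q) x)
  rw [norm_sub_rev] at this
  linarith

end Pool.Agent.R230.Car
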