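import Mathlib

set_option autoImplicit false

namespace Pool.Agent.R230.Car

open Real MeasureTheory Set Filter Topology

/-- the unimodular function `t ^ (i mu)`. -/
noncomputable def E (mu t : ℝ) : ℂ := Complex.exp (Complex.I * ((mu * Real.log t : ℝ) : ℂ))

theorem norm_E (mu t : ℝ) : ‖E mu t‖ = 1 := by
  unfold E
  rw [mul_comm, Complex.norm_exp_ofReal_mul_I]

theorem measurable_E (mu : ℝ) : Measurable (E mu) := by
  unfold E
  fun_prop

theorem E_mul (mu : ℝ) {s t : ℝ} (hs : 0 < s) (ht : 0 < t) :
    E mu (s * t) = E mu s * E mu t := by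
  unfold E
  rw [Real.log_mul hs.ne' ht.ne', ← Complex.exp_add]
  congr 1
  push_cast
  ring

theorem hasDerivAt_E (mu : ℝ) {t : ℝ} (ht : 0 < t) :
    HasDerivAt (E mu) (Complex.I * mu / t * E mu t) t := by
  unfold E
  have h1 : HasDerivAt (fun t : ℝ => Complex.I * ((mu * Real.log t : ℝ) : ℂ))
      (Complex.I * ((mu * t⁻¹ : ℝ) : ℂ)) t :=
    ((Real.hasDerivAt_log ht.ne').const_mul mu).ofReal_comp.const_mul _
  have h2 := h1.cexp
  convert h2 using 1
  push_cast
  field_simp

/-- the integrable majorant `(1 - cos s) / s ^ 2`. -/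
noncomputable def J (s : ℝ) : ℝ := (1 - Real.cos s) / s ^ 2

theorem J_nonneg (s : ℝ) : 0 ≤ J s := by
  unfold J
  have := Real.cos_le_one s
  positivity

theorem J_le_half (s : ℝ) : J s ≤ 1 / 2 := by
  unfold J
  rcases eq_or_ne s 0 with h | h
  · subst h; norm_num
  · have h2 : 0 < s ^ 2 := by positivity
    rw [div_le_iff₀ h2]
    have := Real.one_sub_sq_div_two_le_cos (x := s)
    linarith

theorem J_le_inv (s : ℝ) : J s ≤ 2 * s ^ (-2 : ℝ) ∨ s ≤ 0 := by
  rcases le_or_gt s 0 with h | h
  · exact Or.inr h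
  · left
    unfold J
    rw [Real.rpow_neg h.le]
    have : s ^ (2 : ℝ) = s ^ 2 := by norm_cast
    rw [this, div_eq_mul_inv]
    have := Real.neg_one_le_cos s
    have h2 : 0 ≤ (s ^ 2)⁻¹ := by positivity
    nlinarith

theorem measurable_J : Measurable J := by
  unfold J
  fun_prop

theorem integrableOn_J : IntegrableOn J (Ioi 0) := by
  rw [← Ioc_union_Ioi_eq_Ioi (zero_le_one (α := ℝ)), integrableOn_union]
  constructor
  · apply Measure.integrableOn_of_bounded (M := 1 / 2)
    · simp
    · exact measurable_J.aestronglyMeasurable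
    · refine Eventually.of_forall fun s => ?_
      rw [Real.norm_of_nonneg (J_nonneg s)]
      exact J_le_half s
  · have h1 : IntegrableOn (fun s : ℝ => 2 * s ^ (-2 : ℝ)) (Ioi 1) :=
      (integrableOn_Ioi_rpow_of_lt (by norm_num) one_pos).const_mul 2
    refine Integrable.mono' h1 measurable_J.aestronglyMeasurable ?_
    filter_upwards [ae_restrict_mem measurableSet_Ioi] with s hs
    rw [Real.norm_of_nonneg (J_nonneg s)]
    rcases J_le_inv s with h | h
    · exact h
    · exact absurd hs (by simp only [mem_Ioi, not_lt]; linarith)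

/-- the constant `∫_0^∞ (1 - cos s) / s ^ 2 ds`. -/
noncomputable def A : ℝ := ∫ s in Ioi (0 : ℝ), J s

theorem A_pos : 0 < A := by
  have h1 : ∫ s in Ioc (1 : ℝ) 2, J s ≤ A := by
    unfold A
    apply setIntegral_mono_set integrableOn_J
    · filter_upwards with s using J_nonneg s
    · exact (Ioc_subset_Ioi_self.trans (Ioi_subset_Ioi zero_le_one)).eventuallyLE
  have h2 : (∫ s in Ioc (1 : ℝ) 2, ((1 - Real.cos 1) / 4 : ℝ)) ≤ ∫ s in Ioc (1 : ℝ) 2, J s := by
    apply setIntegral_mono_on
    · simp
    · exact integrableOn_J.mono_set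
        (Ioc_subset_Ioi_self.trans (Ioi_subset_Ioi zero_le_one))
    · exact measurableSet_Ioc
    · intro s hs
      unfold J
      have hcos : Real.cos s ≤ Real.cos 1 := by
        apply Real.cos_le_cos_of_nonneg_of_le_pi (by norm_num) _ hs.1.le
        linarith [hs.2, Real.pi_gt_three]
      have h1 : 0 ≤ 1 - Real.cos 1 := by linarith [Real.cos_le_one 1]
      have hs1 := hs.1
      have hs2 := hs.2
      apply div_le_div₀ (by linarith) (by linarith) (by positivity)
      nlinarith
  have h3 : Real.cos 1 < 1 := by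
    have := Real.cos_one_le
    linarith
  simp only [integral_const, MeasurableSet.univ, measureReal_restrict_apply, univ_inter,
    Real.volume_real_Ioc_of_le (by norm_num : (1 : ℝ) ≤ 2), smul_eq_mul] at h2
  linarith

/-- the main oscillatory integral. -/
noncomputable def N (mu xi : ℝ) : ℂ :=
  ∫ s in (0 : ℝ)..xi, E mu s * ((Real.sin s / s : ℝ) : ℂ)

theorem N_formula (mu : ℝ) {xi : ℝ} (hxi : 0 < xi) :
    N mu xi = E mu xi * (((1 - Real.cos xi) / xi : ℝ) : ℂ)
      + (1 - Complex.I * mu) * ∫ s in (0 : ℝ)..xi, E mu s * ((J s : ℝ) : ℂ) := by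
  set F : ℝ → ℂ := fun s => E mu s * (((1 - Real.cos s) / s : ℝ) : ℂ) with hF
  set F' : ℝ → ℂ := fun s => E mu s * ((Real.sin s / s : ℝ) : ℂ)
      - (1 - Complex.I * mu) * (E mu s * ((J s : ℝ) : ℂ)) with hF'
  have hJ : IntervalIntegrable (fun s => E mu s * ((J s : ℝ) : ℂ)) volume 0 xi := by
    rw [intervalIntegrable_iff_integrableOn_Ioc_of_le hxi.le]
    refine Integrable.mono' (g := J) (integrableOn_J.mono_set Ioc_subset_Ioi_self) ?_ ?_
    · exact ((measurable_E mu).mul (Complex.measurable_ofReal.comp measurable_J)).aestronglyMeasurable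
    · filter_upwards with s
      rw [norm_mul, norm_E, one_mul, Complex.norm_real, Real.norm_of_nonneg (J_nonneg s)]
  have hS : IntervalIntegrable (fun s => E mu s * ((Real.sin s / s : ℝ) : ℂ)) volume 0 xi := by
    rw [intervalIntegrable_iff_integrableOn_Ioc_of_le hxi.le]
    apply Measure.integrableOn_of_bounded (M := 1)
    · simp
    · apply Measurable.aestronglyMeasurable
      apply (measurable_E mu).mul
      fun_prop
    · filter_upwards with s
      rw [norm_mul, norm_E, one_mul, Complex.norm_real, Real.norm_eq_abs, abs_div]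
      rcases eq_or_ne s 0 with h | h
      · subst h; simp
      · rw [div_le_one (abs_pos.mpr h)]
        exact Real.abs_sin_le_abs
  have hderiv : ∀ s ∈ Ioo (0 : ℝ) xi, HasDerivAt F (F' s) s := by
    intro s hs
    have hs0 : s ≠ 0 := hs.1.ne'
    have h1 : HasDerivAt (fun s : ℝ => (1 - Real.cos s) / s)
        ((Real.sin s * s - (1 - Real.cos s) * 1) / s ^ 2) s := by
      have h0 : HasDerivAt (fun s : ℝ => 1 - Real.cos s) (Real.sin s) s := by
        have := (Real.hasDerivAt_cos s).const_sub 1
        simpa using this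
      exact h0.div (hasDerivAt_id s) hs0
    have h2 := (hasDerivAt_E mu hs.1).mul h1.ofReal_comp
    have h3 : HasDerivAt F (Complex.I * mu / s * E mu s * (((1 - Real.cos s) / s : ℝ) : ℂ)
        + E mu s * (((Real.sin s * s - (1 - Real.cos s) * 1) / s ^ 2 : ℝ) : ℂ)) s := h2
    have hsC : (s : ℂ) ≠ 0 := by exact_mod_cast hs0
    have e : F' s = Complex.I * mu / s * E mu s * (((1 - Real.cos s) / s : ℝ) : ℂ)
        + E mu s * (((Real.sin s * s - (1 - Real.cos s) * 1) / s ^ 2 : ℝ) : ℂ) := by
      show E mu s * ((Real.sin s / s : ℝ) : ℂ)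
        - (1 - Complex.I * mu) * (E mu s * (((1 - Real.cos s) / s ^ 2 : ℝ) : ℂ)) = _
      push_cast
      field_simp
      ring
    rw [e]
    exact h3
  have hcont : ContinuousOn F (Icc 0 xi) := by
    intro s hs
    rcases eq_or_lt_of_le hs.1 with h | h
    · subst h
      apply ContinuousAt.continuousWithinAt
      rw [ContinuousAt]
      have hF0 : F 0 = 0 := by simp [hF]
      rw [hF0]
      apply squeeze_zero_norm (a := fun s : ℝ => |s| / 2)
      · intro s
        simp only [hF]
        rw [norm_mul, norm_E, one_mul, Complex.norm_real, Real.norm_eq_abs, abs_div]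
        rcases eq_or_ne s 0 with h | h
        · subst h; simp
        · rw [div_le_iff₀ (abs_pos.mpr h)]
          have h1 := Real.one_sub_sq_div_two_le_cos (x := s)
          have h2 := Real.cos_le_one s
          rw [abs_of_nonneg (by linarith)]
          have : |s| / 2 * |s| = s ^ 2 / 2 := by rw [← sq_abs s]; ring
          rw [this]
          linarith
      · have : Tendsto (fun s : ℝ => |s| / 2) (𝓝 0) (𝓝 (|0| / 2)) :=
          (continuous_abs.div_const 2).tendsto 0
        simpa using this
    · apply ContinuousAt.continuousWithinAt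
      have h1 : ContinuousAt (fun s : ℝ => (1 - Real.cos s) / s) s := by
        apply ContinuousAt.div
        · fun_prop
        · fun_prop
        · exact h.ne'
      exact (hasDerivAt_E mu h).continuousAt.mul
        (Complex.continuous_ofReal.continuousAt.comp h1)
  have hint : IntervalIntegrable F' volume 0 xi := hS.sub (hJ.const_mul _)
  have key := intervalIntegral.integral_eq_sub_of_hasDerivAt_of_le hxi.le hcont hderiv hint
  have hF0 : F 0 = 0 := by simp [hF]
  rw [hF0, sub_zero] at key
  have key2 : (∫ s in (0 : ℝ)..xi, (E mu s * ((Real.sin s / s : ℝ) : ℂ)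
      - (1 - Complex.I * mu) * (E mu s * ((J s : ℝ) : ℂ))))
      = E mu xi * (((1 - Real.cos xi) / xi : ℝ) : ℂ) := key
  rw [intervalIntegral.integral_sub hS (hJ.const_mul _),
    intervalIntegral.integral_const_mul] at key2
  unfold N
  rw [← key2]
  ring

theorem tendsto_N {mu xi : ℕ → ℝ} (hmu : Tendsto mu atTop (𝓝 0)) (hxi : Tendsto xi atTop atTop) :
    Tendsto (fun n => N (mu n) (xi n)) atTop (𝓝 (A : ℂ)) := by
  have hpos : ∀ᶠ n in atTop, 0 < xi n := hxi.eventually_gt_atTop 0
  have h1 : Tendsto (fun n => E (mu n) (xi n) * (((1 - Real.cos (xi n)) / xi n : ℝ) : ℂ)) atTop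
      (𝓝 0) := by
    apply squeeze_zero_norm' (a := fun n => 2 / xi n)
    · filter_upwards [hpos] with n hn
      rw [norm_mul, norm_E, one_mul, Complex.norm_real, Real.norm_eq_abs, abs_div, abs_of_pos hn]
      apply div_le_div_of_nonneg_right _ hn.le
      rw [abs_of_nonneg (by linarith [Real.cos_le_one (xi n)])]
      linarith [Real.neg_one_le_cos (xi n)]
    · exact Tendsto.div_atTop tendsto_const_nhds hxi
  have h2 : Tendsto (fun n => ∫ s in Ioi (0 : ℝ), (Ioc 0 (xi n)).indicator
      (fun s => E (mu n) s * ((J s : ℝ) : ℂ)) s) atTop (𝓝 (∫ s in Ioi (0 : ℝ), ((J s : ℝ) : ℂ))) := by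
    apply tendsto_integral_of_dominated_convergence J
    · intro n
      apply AEStronglyMeasurable.indicator _ measurableSet_Ioc
      exact ((measurable_E _).mul (Complex.measurable_ofReal.comp measurable_J)).aestronglyMeasurable
    · exact integrableOn_J
    · intro n
      filter_upwards with s
      refine (norm_indicator_le_norm_self _ _).trans ?_
      rw [norm_mul, norm_E, one_mul, Complex.norm_real, Real.norm_of_nonneg (J_nonneg s)]
    · filter_upwards [ae_restrict_mem measurableSet_Ioi] with s hs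
      have hs' : 0 < s := hs
      have hE : Tendsto (fun n => E (mu n) s * ((J s : ℝ) : ℂ)) atTop (𝓝 ((J s : ℝ) : ℂ)) := by
        have : Tendsto (fun n => E (mu n) s) atTop (𝓝 (E 0 s)) := by
          unfold E
          have hc : Continuous fun m : ℝ => Complex.exp (Complex.I * ((m * Real.log s : ℝ) : ℂ)) := by
            fun_prop
          exact (hc.tendsto 0).comp hmu
        have hE0 : E 0 s = 1 := by simp [E]
        rw [hE0] at this
        simpa using this.mul_const ((J s : ℝ) : ℂ)
      refine hE.congr' ?_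
      filter_upwards [hxi.eventually_ge_atTop s] with n hn
      rw [indicator_of_mem (show s ∈ Ioc 0 (xi n) from ⟨hs', hn⟩)]
  have h3 : Tendsto (fun n => ∫ s in (0 : ℝ)..(xi n), E (mu n) s * ((J s : ℝ) : ℂ)) atTop
      (𝓝 (A : ℂ)) := by
    have hA : (∫ s in Ioi (0 : ℝ), ((J s : ℝ) : ℂ)) = (A : ℂ) := by
      rw [integral_complex_ofReal]; rfl
    rw [← hA]
    refine h2.congr' ?_
    filter_upwards [hpos] with n hn
    rw [intervalIntegral.integral_of_le hn.le, setIntegral_indicator measurableSet_Ioc,
      inter_eq_right.mpr Ioc_subset_Ioi_self]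
  have h4 : Tendsto (fun n => (1 - Complex.I * (mu n : ℂ))) atTop (𝓝 1) := by
    have : Tendsto (fun n => (1 - Complex.I * (mu n : ℂ))) atTop
        (𝓝 (1 - Complex.I * ((0 : ℝ) : ℂ))) := by
      have hc : Continuous fun m : ℝ => (1 - Complex.I * (m : ℂ)) := by fun_prop
      exact (hc.tendsto 0).comp hmu
    simpa using this
  have h5 := h1.add (h4.mul h3)
  rw [zero_add, one_mul] at h5
  refine h5.congr' ?_
  filter_upwards [hpos] with n hn
  rw [N_formula (mu n) hn]

end Pool.Agent.R230.Car
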