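import Pool.Agent.R230.Car.Lower

set_option autoImplicit false

namespace Pool.Agent.R230.Car

open Real MeasureTheory Set Filter Topology

theorem integral_exp_int {m : ℤ} (hm : m ≠ 0) :
    ∫ x in (-π)..π, Complex.exp (Complex.I * m * x) = 0 := by
  have hc : Complex.I * (m : ℂ) ≠ 0 := by simp [hm]
  rw [integral_exp_mul_complex hc]
  have h : Complex.exp (Complex.I * m * (π : ℝ)) = Complex.exp (Complex.I * m * ((-π : ℝ) : ℂ)) := by
    have e : Complex.I * m * (π : ℝ) = Complex.I * m * ((-π : ℝ) : ℂ) + m * (2 * π * Complex.I) := by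
      push_cast; ring
    rw [e, Complex.exp_add, Complex.exp_int_mul_two_pi_mul_I, mul_one]
  rw [h, sub_self, zero_div]

theorem integral_sq_sum (K : ℕ) (n : ℕ → ℕ) (hn : ∀ j < K, ∀ k < K, n j = n k → j = k) :
    ∫ x in (-π)..π, ‖∑ k ∈ Finset.range K, Complex.exp (Complex.I * (n k : ℝ) * x)‖ ^ 2
      = 2 * π * K := by
  have h1 : ∀ x : ℝ, ((‖∑ k ∈ Finset.range K, Complex.exp (Complex.I * (n k : ℝ) * x)‖ ^ 2 : ℝ) : ℂ)
      = ∑ j ∈ Finset.range K, ∑ k ∈ Finset.range K,
        Complex.exp (Complex.I * (((n j : ℤ) - (n k : ℤ) : ℤ) : ℂ) * x) := by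
    intro x
    rw [← Complex.normSq_eq_norm_sq, ← Complex.mul_conj, map_sum, Finset.sum_mul_sum]
    apply Finset.sum_congr rfl
    intro j _
    apply Finset.sum_congr rfl
    intro k _
    rw [← Complex.exp_conj, ← Complex.exp_add]
    congr 1
    simp only [map_mul, Complex.conj_I, Complex.conj_ofReal]
    push_cast
    ring
  have h2 : ((∫ x in (-π)..π,
      ‖∑ k ∈ Finset.range K, Complex.exp (Complex.I * (n k : ℝ) * x)‖ ^ 2 : ℝ) : ℂ)
      = ((2 * π * K : ℝ) : ℂ) := by
    rw [← intervalIntegral.integral_ofReal]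
    simp_rw [h1]
    rw [intervalIntegral.integral_finsetSum]
    · have : ∀ j ∈ Finset.range K, ∫ x in (-π)..π, ∑ k ∈ Finset.range K,
          Complex.exp (Complex.I * (((n j : ℤ) - (n k : ℤ) : ℤ) : ℂ) * x) = 2 * π := by
        intro j hj
        rw [intervalIntegral.integral_finsetSum]
        · rw [Finset.sum_eq_single j]
          · simp
            ring
          · intro k hk hkj
            apply integral_exp_int
            rw [sub_ne_zero]
            intro h
            apply hkj
            exact (hn j (Finset.mem_range.mp hj) k (Finset.mem_range.mp hk)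
              (by exact_mod_cast h)).symm
          · intro h; exact absurd hj h
        · intro k _
          apply Continuous.intervalIntegrable
          fun_prop
      rw [Finset.sum_congr rfl this]
      simp
      ring
    · intro j _
      apply Continuous.intervalIntegrable
      fun_prop
  exact_mod_cast h2

theorem norm_fq (K : ℕ) {q : ℕ} (hq : 2 ≤ q) :
    ∫⁻ x, ‖fq K q x‖ₑ ^ 2 ≤ ENNReal.ofReal (2 * π * K) := by
  set P : ℝ → ℂ := fun x => ∑ k ∈ Finset.range K, Complex.exp (Complex.I * ((q ^ (8 ^ k) : ℕ) : ℝ) * x)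
    with hP
  have hPc : Continuous P := by
    simp only [hP]
    fun_prop
  have h1 : ∀ x, ‖fq K q x‖ₑ ^ 2 ≤ (Ioc (-π) π).indicator (fun x => ENNReal.ofReal (‖P x‖ ^ 2)) x := by
    intro x
    have e : fq K q x = phi x * P x := by
      simp only [fq, g, hP, Finset.mul_sum]
      push_cast
      rfl
    by_cases hx : x ∈ Ioc (-π) π
    · rw [indicator_of_mem hx, e, enorm_mul, ENNReal.ofReal_pow (norm_nonneg _),
        ofReal_norm]
      gcongr
      have : ‖(phi x : ℂ)‖ₑ ≤ 1 := by
        rw [← ofReal_norm, Complex.norm_real, Real.norm_of_nonneg (phi_nonneg x)]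
        rw [← ENNReal.ofReal_one]
        exact ENNReal.ofReal_le_ofReal (phi_le_one x)
      exact mul_le_of_le_one_left (by positivity) this
    · rw [indicator_of_notMem hx]
      have hx3 : 3 ≤ |x| := by
        by_contra h
        rw [not_le, abs_lt] at h
        apply hx
        constructor
        · linarith [Real.pi_gt_three]
        · linarith [Real.pi_gt_three]
      rw [fq_zero K q hx3]
      simp
  calc ∫⁻ x, ‖fq K q x‖ₑ ^ 2
      ≤ ∫⁻ x, (Ioc (-π) π).indicator (fun x => ENNReal.ofReal (‖P x‖ ^ 2)) x := lintegral_mono h1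
    _ = ∫⁻ x in Ioc (-π) π, ENNReal.ofReal (‖P x‖ ^ 2) := lintegral_indicator measurableSet_Ioc _
    _ = ENNReal.ofReal (∫ x in Ioc (-π) π, ‖P x‖ ^ 2) := by
      rw [ofReal_integral_eq_lintegral_ofReal]
      · exact (hPc.norm.pow 2).integrableOn_Ioc
      · filter_upwards with x
        positivity
    _ = ENNReal.ofReal (2 * π * K) := by
      congr 1
      rw [← intervalIntegral.integral_of_le (by linarith [Real.pi_pos])]
      apply integral_sq_sum K (fun k => q ^ (8 ^ k))
      intro j _ k _ h
      have h2 := Nat.pow_right_injective hq h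
      exact Nat.pow_right_injective (by norm_num) h2

end Pool.Agent.R230.Car
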