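import Mathlib

set_option autoImplicit false

namespace Pool.Agent.R230.Car

open Real

/-- base 8 digits: one number aligns `K` phases. -/
theorem align (K : ℕ) : ∀ θ : ℕ → ℝ, ∃ j : ℕ, j < 8 ^ K ∧
    ∀ k < K, ∃ m : ℤ, |θ k - (j : ℝ) * 8 ^ k / 8 ^ K - m| ≤ 1 / 8 := by
  induction K with
  | zero =>
    intro θ
    exact ⟨0, by norm_num, fun k hk => absurd hk (by omega)⟩
  | succ K ih =>
    intro θ
    obtain ⟨j', hj', hk'⟩ := ih (fun k => θ (k + 1))
    set F : ℝ := Int.fract (θ 0) with hF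
    have hF0 : 0 ≤ F := Int.fract_nonneg _
    have hF1 : F < 1 := Int.fract_lt_one _
    set d : ℕ := ⌊8 * F⌋₊ with hd
    have hd1 : (d : ℝ) ≤ 8 * F := Nat.floor_le (by positivity)
    have hd2 : 8 * F < d + 1 := Nat.lt_floor_add_one _
    have hd7 : d < 8 := by
      have : (d : ℝ) < 8 := by linarith
      exact_mod_cast this
    have h8 : (0 : ℝ) < 8 ^ K := by positivity
    have hj'R : (j' : ℝ) < 8 ^ K := by exact_mod_cast hj'
    refine ⟨d * 8 ^ K + j', ?_, ?_⟩
    · have : d * 8 ^ K + j' < (d + 1) * 8 ^ K := by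
        rw [add_mul, one_mul]; omega
      calc d * 8 ^ K + j' < (d + 1) * 8 ^ K := this
        _ ≤ 8 * 8 ^ K := Nat.mul_le_mul_right _ (by omega)
        _ = 8 ^ (K + 1) := by rw [pow_succ]; ring
    · intro k hk
      rcases k with _ | k
      · refine ⟨⌊θ 0⌋, ?_⟩
        have e1 : θ 0 - ((d * 8 ^ K + j' : ℕ) : ℝ) * 8 ^ 0 / 8 ^ (K + 1) - (⌊θ 0⌋ : ℤ)
            = F - d / 8 - (j' : ℝ) / 8 ^ (K + 1) := by
          push_cast
          have : F = θ 0 - ⌊θ 0⌋ := rfl
          rw [this]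
          field_simp
          ring
        rw [e1]
        have h1 : 0 ≤ (j' : ℝ) / 8 ^ (K + 1) := by positivity
        have h2 : (j' : ℝ) / 8 ^ (K + 1) ≤ 1 / 8 := by
          rw [div_le_div_iff₀ (by positivity) (by norm_num), pow_succ]
          nlinarith
        rw [abs_le]
        constructor <;> linarith
      · obtain ⟨m, hm⟩ := hk' k (by omega)
        refine ⟨m - (d : ℤ) * 8 ^ k, ?_⟩
        have e1 : θ (k + 1) - ((d * 8 ^ K + j' : ℕ) : ℝ) * 8 ^ (k + 1) / 8 ^ (K + 1)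
            - ((m - (d : ℤ) * 8 ^ k : ℤ) : ℝ)
            = θ (k + 1) - (j' : ℝ) * 8 ^ k / 8 ^ K - m := by
          push_cast
          field_simp
          ring
        rw [e1]
        exact hm

/-- lower bound for the cosine of an aligned phase. -/
theorem cos_align {x : ℝ} {m : ℤ} (h : |x - m| ≤ 1 / 8) : 1 / 2 ≤ Real.cos (2 * π * x) := by
  have e : Real.cos (2 * π * x) = Real.cos (2 * π * (x - m)) := by
    have : 2 * π * x = 2 * π * (x - m) + m * (2 * π) := by ring
    rw [this, Real.cos_add_int_mul_two_pi]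
  rw [e]
  have h1 := Real.one_sub_sq_div_two_le_cos (x := 2 * π * (x - m))
  have hpi : π < 3.15 := Real.pi_lt_d2
  have hpi0 : 0 < π := Real.pi_pos
  have h2 : (2 * π * (x - m)) ^ 2 ≤ 1 := by
    have : |2 * π * (x - m)| ≤ 1 := by
      rw [abs_mul, abs_of_pos (by positivity : (0 : ℝ) < 2 * π)]
      nlinarith [abs_nonneg (x - m)]
    rw [← sq_abs]
    nlinarith [abs_nonneg (2 * π * (x - m))]
  linarith

end Pool.Agent.R230.Car
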