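import Pool.Agent.R230.Car.Main
import Pool.Agent.R230.Car.Phase

set_option autoImplicit false

namespace Pool.Agent.R230.Car

open Real MeasureTheory Set Filter Topology

/-- the odd difference quotient. -/
noncomputable def dq (f : ℝ → ℂ) (x t : ℝ) : ℂ := (f (x - t) - f (x + t)) / (t : ℂ)

/-- the operator with kernel `w(|t|) / t`. -/
noncomputable def T (w : ℝ → ℂ) (f : ℝ → ℂ) (x : ℝ) : ℂ := ∫ t in Ioi (0 : ℝ), w t * dq f x t

theorem continuousOn_dq {f : ℝ → ℂ} (hf : Continuous f) (x : ℝ) :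
    ContinuousOn (dq f x) (Ioi 0) := by
  unfold dq
  apply ContinuousOn.div
  · fun_prop
  · fun_prop
  · intro t ht
    exact_mod_cast (show (0 : ℝ) < t from ht).ne'

theorem measurable_dq {f : ℝ → ℂ} (hf : Continuous f) (x : ℝ) : Measurable (dq f x) := by
  unfold dq
  have := hf.measurable
  fun_prop

theorem norm_dq_le {f : ℝ → ℂ} {B : NNReal} (hB : LipschitzWith B f) (x : ℝ) {t : ℝ} (ht : 0 < t) :
    ‖dq f x t‖ ≤ 2 * B := by
  unfold dq
  rw [norm_div, Complex.norm_real, Real.norm_of_nonneg ht.le, div_le_iff₀ ht]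
  have h := hB.dist_le_mul (x - t) (x + t)
  rw [dist_eq_norm, Real.dist_eq] at h
  have : |x - t - (x + t)| = 2 * t := by
    rw [show x - t - (x + t) = -(2 * t) by ring, abs_neg, abs_of_pos (by linarith)]
  rw [this] at h
  linarith

theorem dq_eq_zero {f : ℝ → ℂ} {R : ℝ} (hR : ∀ y, R ≤ |y| → f y = 0) {x t : ℝ}
    (ht : R + |x| ≤ t) : dq f x t = 0 := by
  have h1 : R ≤ |x - t| := by
    have : t ≤ |x - t| + |x| := by
      calc t ≤ |t| := le_abs_self t
        _ = |-(x - t) + x| := by congr 1; ring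
        _ ≤ |-(x - t)| + |x| := abs_add_le _ _
        _ = _ := by rw [abs_neg]
    linarith
  have h2 : R ≤ |x + t| := by
    have : t ≤ |x + t| + |x| := by
      calc t ≤ |t| := le_abs_self t
        _ = |(x + t) + -x| := by congr 1; ring
        _ ≤ |x + t| + |-x| := abs_add_le _ _
        _ = _ := by rw [abs_neg]
    linarith
  simp [dq, hR _ h1, hR _ h2]

theorem integrableOn_dq {f : ℝ → ℂ} {B : NNReal} (hB : LipschitzWith B f) {R : ℝ}
    (hR : ∀ y, R ≤ |y| → f y = 0) (x : ℝ) : IntegrableOn (dq f x) (Ioi 0) := by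
  set S : ℝ := max (R + |x|) 0 with hS
  have h1 : IntegrableOn (dq f x) (Ioc 0 S) := by
    apply Measure.integrableOn_of_bounded (M := 2 * B)
    · simp
    · exact (measurable_dq hB.continuous x).aestronglyMeasurable
    · filter_upwards [ae_restrict_mem measurableSet_Ioc] with t ht
      exact norm_dq_le hB x ht.1
  have h2 : IntegrableOn (dq f x) (Ioi S) := by
    refine (integrableOn_zero : IntegrableOn (fun _ : ℝ => (0 : ℂ)) (Ioi S) volume).congr_fun ?_
      measurableSet_Ioi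
    intro t ht
    have : R + |x| ≤ t := (le_max_left _ _).trans (show S < t from ht).le
    exact (dq_eq_zero hR this).symm
  have h3 : Ioc 0 S ∪ Ioi S = Ioi (0 : ℝ) := Ioc_union_Ioi_eq_Ioi (le_max_right _ _)
  rw [← h3]
  exact h1.union h2

theorem integrableOn_mul_dq {w : ℝ → ℂ} (hw : Measurable w) (hw1 : ∀ t, ‖w t‖ ≤ 1)
    {f : ℝ → ℂ} {B : NNReal} (hB : LipschitzWith B f) {R : ℝ}
    (hR : ∀ y, R ≤ |y| → f y = 0) (x : ℝ) : IntegrableOn (fun t => w t * dq f x t) (Ioi 0) := by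
  refine Integrable.mono (integrableOn_dq hB hR x)
    (hw.mul (measurable_dq hB.continuous x)).aestronglyMeasurable ?_
  filter_upwards with t
  rw [norm_mul]
  exact mul_le_of_le_one_left (norm_nonneg _) (hw1 t)

theorem scaling (mu : ℝ) {xi : ℝ} (hxi : 0 < xi) :
    ∫ t in (0 : ℝ)..1, E mu t * ((Real.sin (xi * t) / t : ℝ) : ℂ) = E (-mu) xi * N mu xi := by
  have h := intervalIntegral.integral_comp_mul_left
    (fun s => E mu s * ((Real.sin s / s : ℝ) : ℂ)) hxi.ne' (a := 0) (b := 1)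
  rw [mul_zero, mul_one] at h
  have hE : E (-mu) xi * E mu xi = 1 := by
    unfold E
    rw [← Complex.exp_add]
    convert Complex.exp_zero using 2
    push_cast
    ring
  have h2 : ∫ t in (0 : ℝ)..1, E mu (xi * t) * ((Real.sin (xi * t) / (xi * t) : ℝ) : ℂ)
      = ∫ t in (0 : ℝ)..1, (E mu xi * (xi : ℂ)⁻¹) * (E mu t * ((Real.sin (xi * t) / t : ℝ) : ℂ)) := by
    apply intervalIntegral.integral_congr_ae
    filter_upwards with t ht
    rw [uIoc_of_le zero_le_one] at ht
    rw [E_mul mu hxi ht.1]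
    have h1 : (xi : ℂ) ≠ 0 := by exact_mod_cast hxi.ne'
    have h2 : (t : ℂ) ≠ 0 := by exact_mod_cast ht.1.ne'
    push_cast
    field_simp
  rw [h2, intervalIntegral.integral_const_mul] at h
  have h1 : (xi : ℂ) ≠ 0 := by exact_mod_cast hxi.ne'
  have h3 : N mu xi = E mu xi * ∫ t in (0 : ℝ)..1, E mu t * ((Real.sin (xi * t) / t : ℝ) : ℂ) := by
    unfold N
    rw [Complex.real_smul] at h
    push_cast at h
    have h4 := congrArg (fun z => (xi : ℂ) * z) h
    rw [← mul_assoc, ← mul_assoc, mul_comm (xi : ℂ) (E mu xi), mul_assoc (E mu xi),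
      mul_inv_cancel₀ h1, mul_one, ← mul_assoc, mul_inv_cancel₀ h1, one_mul] at h4
    exact_mod_cast h4.symm
  rw [h3, ← mul_assoc, hE, one_mul]

/-- one integration by parts. -/
theorem osc {u u' : ℝ → ℂ} (hu : ∀ t ∈ Icc (1 : ℝ) 4, HasDerivAt u (u' t) t)
    (hu'c : ContinuousOn u' (Icc 1 4)) {M : ℝ}
    (hM : ∀ t ∈ Icc (1 : ℝ) 4, ‖u' t‖ ≤ M) (h4 : u 4 = 0) (h1 : ‖u 1‖ ≤ 1) {eta : ℝ}
    (heta : eta ≠ 0) :
    ‖∫ t in (1 : ℝ)..4, u t * Complex.exp (Complex.I * eta * t)‖ ≤ (1 + 3 * M) / |eta| := by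
  have hc : Complex.I * (eta : ℂ) ≠ 0 := by
    simp [heta]
  set v : ℝ → ℂ := fun t => Complex.exp (Complex.I * eta * t) / (Complex.I * eta) with hv
  have hv' : ∀ t : ℝ, HasDerivAt v (Complex.exp (Complex.I * eta * t)) t := by
    intro t
    have h1 : HasDerivAt (fun t : ℝ => Complex.I * (eta : ℂ) * (t : ℂ)) (Complex.I * eta) t := by
      simpa using (hasDerivAt_id t).ofReal_comp.const_mul (Complex.I * (eta : ℂ))
    have h2 := h1.cexp.div_const (Complex.I * (eta : ℂ))
    rw [mul_div_cancel_right₀ _ hc] at h2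
    exact h2
  have hnv : ∀ t : ℝ, ‖v t‖ = 1 / |eta| := by
    intro t
    simp only [hv]
    rw [norm_div]
    have e1 : Complex.I * (eta : ℂ) * (t : ℂ) = ((eta * t : ℝ) : ℂ) * Complex.I := by
      push_cast; ring
    rw [e1, Complex.norm_exp_ofReal_mul_I, norm_mul, Complex.norm_I, one_mul, Complex.norm_real,
      Real.norm_eq_abs]
  have hu'i : IntervalIntegrable u' volume 1 4 := by
    apply ContinuousOn.intervalIntegrable
    rwa [uIcc_of_le (by norm_num)]
  have hvi : IntervalIntegrable (fun t : ℝ => Complex.exp (Complex.I * eta * t)) volume 1 4 := by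
    apply Continuous.intervalIntegrable
    fun_prop
  have key := intervalIntegral.integral_mul_deriv_eq_deriv_mul
    (u := u) (v := v) (u' := u') (v' := fun t : ℝ => Complex.exp (Complex.I * eta * t))
    (a := 1) (b := 4) (fun t ht => hu t (by rwa [uIcc_of_le (by norm_num)] at ht))
    (fun t _ => hv' t) hu'i hvi
  rw [key, h4, zero_mul, zero_sub]
  have b1 : ‖u 1 * v 1‖ ≤ 1 / |eta| := by
    rw [norm_mul, hnv]
    have : 0 ≤ 1 / |eta| := by positivity
    nlinarith
  have b2 : ‖∫ t in (1 : ℝ)..4, u' t * v t‖ ≤ M * (1 / |eta|) * |4 - 1| := by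
    apply intervalIntegral.norm_integral_le_of_norm_le_const
    intro t ht
    rw [uIoc_of_le (by norm_num)] at ht
    rw [norm_mul, hnv]
    exact mul_le_mul_of_nonneg_right (hM t ⟨ht.1.le, ht.2⟩) (by positivity)
  have b3 : |(4 : ℝ) - 1| = 3 := by norm_num
  rw [b3] at b2
  calc ‖-(u 1 * v 1) - ∫ t in (1 : ℝ)..4, u' t * v t‖
      ≤ ‖-(u 1 * v 1)‖ + ‖∫ t in (1 : ℝ)..4, u' t * v t‖ := norm_sub_le _ _
    _ ≤ 1 / |eta| + M * (1 / |eta|) * 3 := by rw [norm_neg]; exact add_le_add b1 b2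
    _ = (1 + 3 * M) / |eta| := by ring

/-- the smooth cutoff. -/
noncomputable def bump : ContDiffBump (0 : ℝ) := ⟨2, 3, by norm_num, by norm_num⟩

noncomputable def phi (x : ℝ) : ℝ := bump x

theorem phi_smooth : ContDiff ℝ (⊤ : ℕ∞) phi := bump.contDiff

theorem phi_one {x : ℝ} (hx : |x| ≤ 2) : phi x = 1 := by
  apply bump.one_of_mem_closedBall
  simpa [bump] using hx

theorem phi_zero {x : ℝ} (hx : 3 ≤ |x|) : phi x = 0 := by
  apply bump.zero_of_le_dist
  simpa [bump, Real.dist_eq] using hx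

theorem phi_nonneg (x : ℝ) : 0 ≤ phi x := bump.nonneg

theorem phi_le_one (x : ℝ) : phi x ≤ 1 := bump.le_one

theorem phi_compact : HasCompactSupport phi := bump.hasCompactSupport

theorem exists_phi_lip : ∃ B : NNReal, LipschitzWith B phi :=
  ContDiff.lipschitzWith_of_hasCompactSupport phi_compact phi_smooth (by simp)

/-- the modulated bump. -/
noncomputable def g (xi : ℝ) (x : ℝ) : ℂ := (phi x : ℂ) * Complex.exp (Complex.I * xi * x)

theorem g_smooth (xi : ℝ) : ContDiff ℝ (⊤ : ℕ∞) (g xi) := by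
  unfold g
  apply ContDiff.mul
  · exact Complex.ofRealCLM.contDiff.comp phi_smooth
  · apply ContDiff.cexp
    apply ContDiff.mul contDiff_const
    exact Complex.ofRealCLM.contDiff

theorem g_compact (xi : ℝ) : HasCompactSupport (g xi) := by
  apply HasCompactSupport.mul_right
  exact phi_compact.comp_left (g := fun r : ℝ => (r : ℂ)) (by simp)

theorem g_zero (xi : ℝ) {x : ℝ} (hx : 3 ≤ |x|) : g xi x = 0 := by
  simp [g, phi_zero hx]

end Pool.Agent.R230.Car
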